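import Pool.Agent.Q10.SZB

/-!
# The sublinear projective Schwartz–Zippel bound

Positive answer to Q1: for all `n ≥ 1` and `0 ≤ k ≤ n` there is a constant `c = c(n,k)` such that every variety
`X ⊂ ℙⁿ` over `ℚ` of pure dimension `k` and degree `d` satisfies `#X(ℚ,B) ≤ c d^{n/(n+1)} B^{k+1}` for all `B ≥ 1`.
-/

set_option autoImplicit false

namespace Pool.Agent.Results.MP_a053e2_nt.SublinearSchwartzZippel

open MvPolynomial Filter Topology
open scoped LinearAlgebra.Projectivization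

/-- The homogeneous coordinate ring `ℚ[X₀,…,X_n]` of `ℙⁿ` over `ℚ`. -/
abbrev Coord (n : ℕ) := MvPolynomial (Fin (n + 1)) ℚ

/-- Homogeneous ideals: the homogeneous components of every element lie in the ideal. -/
def IsHomogeneousIdeal {n : ℕ} (I : Ideal (Coord n)) : Prop :=
  ∀ f ∈ I, ∀ t : ℕ, homogeneousComponent t f ∈ I

/-- The Hilbert function of `I`: the dimension over `ℚ` of the degree `t` part of `ℚ[X₀,…,X_n]/I`. -/
noncomputable def hilbertFunction {n : ℕ} (I : Ideal (Coord n)) (t : ℕ) : ℕ :=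
  Module.finrank ℚ
    ((homogeneousSubmodule (Fin (n + 1)) ℚ t).map (Ideal.Quotient.mkₐ ℚ I).toLinearMap)

/-- The integral subvariety `V(P)` of dimension `k` has degree `δ`: the Hilbert function of `P` is asymptotic to
`δ t^k / k!`. -/
def IsDegree {n : ℕ} (P : Ideal (Coord n)) (k : ℕ) (δ : ℕ) : Prop :=
  Tendsto (fun t : ℕ => (k.factorial : ℝ) * (hilbertFunction P t : ℝ) / (t : ℝ) ^ k) atTop
    (𝓝 (δ : ℝ))

/-- The homogeneous radical ideal `I` defines a variety (a reduced closed subscheme) in `ℙⁿ` over `ℚ` of pure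
dimension `k`: every minimal prime `P` of `I`, that is, the ideal of every irreducible component, satisfies
`dim ℚ[X₀,…,X_n]/P = k + 1`.  (`I = ⊤` defines the empty variety.) -/
structure IsPureVariety {n : ℕ} (I : Ideal (Coord n)) (k : ℕ) : Prop where
  homogeneous : IsHomogeneousIdeal I
  radical : I.IsRadical
  dim : ∀ P ∈ I.minimalPrimes, ringKrullDim (Coord n ⧸ P) = k + 1

/-- The variety of `I` has degree `d`: `d` is the sum of the degrees of its irreducible components. -/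
def HasDegree {n : ℕ} (I : Ideal (Coord n)) (k : ℕ) (d : ℕ) : Prop :=
  ∃ δ : Ideal (Coord n) → ℕ, (∀ P ∈ I.minimalPrimes, IsDegree P k (δ P)) ∧
    d = ∑ᶠ P ∈ I.minimalPrimes, δ P

/-- `X(ℚ,B)`: the points of the variety of `I` that admit homogeneous integer coordinates of absolute value at
most `B`. -/
def ratPoints {n : ℕ} (I : Ideal (Coord n)) (B : ℝ) : Set (ℙ ℚ (Fin (n + 1) → ℚ)) :=
  {x | ∃ (z : Fin (n + 1) → ℤ) (hz : (fun i => (z i : ℚ)) ≠ 0),
      x = Projectivization.mk ℚ (fun i => (z i : ℚ)) hz ∧ (∀ i, |(z i : ℝ)| ≤ B) ∧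
      ∀ f ∈ I, MvPolynomial.eval (fun i => (z i : ℚ)) f = 0}

theorem result : ∀ n k : ℕ, 1 ≤ n → k ≤ n → ∃ c : ℝ, ∀ I : Ideal (Coord n), IsPureVariety I k →
    (∃ d : ℕ, HasDegree I k d) ∧ ∀ d : ℕ, HasDegree I k d → ∀ B : ℝ, 1 ≤ B →
      (ratPoints I B).Finite ∧
        ((ratPoints I B).ncard : ℝ) ≤ c * (d : ℝ) ^ ((n : ℝ) / ((n : ℝ) + 1)) * B ^ (k + 1) := by
  classical
  intro n k hn hk
  obtain ⟨c, _, hc⟩ := Pool.Agent.Q10.SZ.bound_all hn hk
  refine ⟨c, fun I hI => ?_⟩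
  have hfin : I.minimalPrimes.Finite := Ideal.finite_minimalPrimes_of_isNoetherianRing _ I
  have hIh : Pool.Agent.Q10.SZ.HomI I := Pool.Agent.Q10.SZ.homI_iff.2 fun t g hg =>
    hI.homogeneous g hg t
  have hprime : ∀ P ∈ I.minimalPrimes, P.IsPrime := fun P hP => hP.1.1
  have hhom : ∀ P ∈ I.minimalPrimes, Pool.Agent.Q10.SZ.HomI P := by
    intro P hP
    exact Pool.Agent.Q10.SZ.minimal_hom hIh hP
  have hdeg : ∀ P ∈ I.minimalPrimes, ∃ δ : ℕ, IsDegree P k δ := by
    intro P hP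
    obtain ⟨w, hw⟩ := Pool.Agent.Q10.SZ.comp_LN (hprime P hP) (hhom P hP) (hI.dim P hP)
    obtain ⟨δ, _, hδ⟩ := Pool.Agent.Q10.SZ.exists_degree (hhom P hP) hw
    exact ⟨δ, hδ⟩
  refine ⟨?_, ?_⟩
  · choose! δ hδ using hdeg
    exact ⟨_, δ, hδ, rfl⟩
  · rintro d ⟨δ, hδ, rfl⟩ B hB
    have hsub : ratPoints I B = Pool.Agent.Q10.SZ.ratPoints hfin.toFinset B := by
      ext x
      constructor
      · rintro ⟨z, hz, hx, hzB, hf⟩
        refine ⟨z, hz, hx, hzB, ?_⟩
        have h1 : I ≤ Pool.Agent.Q10.SZ.Mx z := by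
          intro f hfI
          rw [Pool.Agent.Q10.SZ.mem_Mx]
          have h2 := hf f hfI
          rwa [← coe_aeval_eq_eval] at h2
        have := Pool.Agent.Q10.SZ.Mx_prime z
        obtain ⟨P, hP, hPM⟩ := Ideal.exists_minimalPrimes_le h1
        refine ⟨P, hfin.mem_toFinset.2 hP, fun f hfP => ?_⟩
        have h2 := hPM hfP
        rw [Pool.Agent.Q10.SZ.mem_Mx] at h2
        rw [← coe_aeval_eq_eval]
        exact h2
      · rintro ⟨z, hz, hx, hzB, P, hP, hf⟩
        exact ⟨z, hz, hx, hzB, fun f hfI => hf f ((hfin.mem_toFinset.1 hP).1.2 hfI)⟩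
    rw [hsub]
    refine ⟨Pool.Agent.Q10.SZ.ratPoints_finite _ _, ?_⟩
    have h1 := hc hfin.toFinset (fun P hP => by
      have hP' := hfin.mem_toFinset.1 hP
      exact ⟨hprime P hP', hhom P hP', hI.dim P hP'⟩) (fun P => (δ P : ℝ))
      (fun P hP => hδ P (hfin.mem_toFinset.1 hP)) B hB
    have h2 : ((∑ᶠ P ∈ I.minimalPrimes, δ P : ℕ) : ℝ) = ∑ P ∈ hfin.toFinset, (δ P : ℝ) := by
      rw [finsum_mem_eq_finite_toFinset_sum _ hfin]
      push_cast
      rfl
    rw [h2]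
    exact h1

end Pool.Agent.Results.MP_a053e2_nt.SublinearSchwartzZippel
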